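import Pool.Agent.MP_ecfd11_lc.H46M.LemA

/-!
The extenders are in HOD without the generalized continuum hypothesis.
-/

set_option synthInstance.maxSize 4000

namespace Pool.Agent.MP_ecfd11_lc.H46M

open Pool.Agent.MP_ecfd11_lc.H20 Pool.Agent.MP_ecfd11_lc.H13X Pool.Agent.MP_ecfd11_lc.H3U
  Pool.Agent.MP_ecfd11_lc.H3E Pool.Agent.MP_ecfd11_lc.H65S

universe u

open ZFSet Cardinal Function Filter

variable {g t a n th y G : ZFSet.{u}} {B : ZFSet.{u} → ZFSet.{u}} {k : Cardinal.{u}}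

theorem kp_of (hk : ℵ₀ ≤ k) (ha : a.IsOrdinal) (ho : om ⊆ a) (hs : SL a) (ht : th.IsOrdinal)
    (t1 : ∀ b ∈ th, DInj Set.univ b a) (t2 : ¬ DInj Set.univ th a) (y1 : card y ≤ k)
    (y2 : y ⊆ th) (y3 : ∀ x ∈ th, ∃ b ∈ y, x ⊆ b) (hn : n.IsOrdinal) (h1 : card n ≤ card a)
    (h2 : card (n.sep fun x => a ∈ x ∧ H46.HODCard x) ≤ k) : Cv k a n := by
  induction n using ZFSet.inductionOn with
  | _ n ih =>
  have ih' : ∀ b ∈ n, Cv k a b := fun b hb => ih b hb (hn.mem hb)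
    ((card_mono (hn.subset_of_mem hb)).trans h1) ((card_mono fun z hz =>
      mem_sep.2 ⟨hn.mem_trans (mem_sep.1 hz).1 hb, (mem_sep.1 hz).2⟩).trans h2)
  rcases ha.mem_or_subset hn with h3 | h3
  swap
  · exact Cv.self hk (od_iff.2 (Tm.ofOrd hn)) (DInj.of_subset h3)
  by_cases hb : H57F.Bd (Order.succ k) n
  · have hu : Unc n := ⟨hn, fun z z1 z2 =>
      hb z z1 (Order.lt_succ_iff.2 (z2.trans (card_om.trans_le hk)))⟩
    obtain ⟨c, c1, c2⟩ := hs.cof n n hu subset_rfl (fun x hx => hu.succ hx) h1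
    obtain ⟨d, d1, d2⟩ := hb _ sep_subset (Order.lt_succ_iff.2 h2)
    have hm := union_mem hn d1 h3
    refine kp_step hk ha ho hs.sl ht t1 t2 y1 y2 y3 hu hb c1 c2 (hn.mem hm) (fun x hx => ?_)
      (ih' _ hm)
    have r0 := H46.rho_ord (hn.mem hx)
    rcases ha.mem_or_subset r0 with h4 | h4
    · exact fun z hz => mem_union.2 (Or.inl ((hn.mem d1).mem_trans hz (d2 _ (mem_sep.2
        ⟨r0.mem_of_subset_of_mem hn (H46.rho_subset (hn.mem hx)) hx, h4,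
          H46.hodCard_rho (hn.mem hx)⟩))))
    · exact fun z hz => mem_union.2 (Or.inr (h4 hz))
  · simp only [H57F.Bd, not_forall, not_exists, not_and] at hb
    obtain ⟨z, z1, z2, z3⟩ := hb
    refine Cv.union hk (Order.lt_succ_iff.1 z2) (fun b => insert b b)
      (fun b hb => (ih' b (z1 hb)).succ hk ho (hn.mem (z1 hb))) fun x hx => ?_
    obtain ⟨w, w1, w2⟩ := z3 x hx
    exact ⟨w, w1, mem_insert_iff.2 ((hn.mem hx).eq_or_mem_of_subset (hn.mem (z1 w1))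
      (((hn.mem (z1 w1)).notMem_iff_subset (hn.mem hx)).1 w2))⟩

theorem exists_th (ha : a.IsOrdinal) : ∃ th : ZFSet.{u}, th.IsOrdinal ∧
    (∀ b ∈ th, DInj Set.univ b a) ∧ ¬ DInj Set.univ th a ∧ card th ≤ card (Lev a) := by
  obtain ⟨e, e0, e1, e2⟩ := od_enum (hod_Lev ha).self fun x hx => ((hod_Lev ha).mem hx).self
  obtain ⟨th, ⟨t0, t1⟩, t2⟩ := exists_min_mem
    (p := fun t => t.IsOrdinal ∧ ¬ DInj Set.univ t a) (x := img e (Lev a)) ⟨e1, fun h1 =>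
      kp_cantor ha (DInj.trans ⟨e, e0, fun x hx => mem_img.2 ⟨x, hx, rfl⟩, e2⟩ h1)⟩
  have t3 : ∀ b ∈ th, DInj Set.univ b a := fun b hb => by_contra fun h1 => t2 b hb ⟨t0.mem hb, h1⟩
  have t4 : th ⊆ img e (Lev a) := (e1.mem_or_subset t0).resolve_left fun h1 =>
    kp_cantor ha (DInj.trans ⟨e, e0, fun x hx => mem_img.2 ⟨x, hx, rfl⟩, e2⟩ (t3 _ h1))
  exact ⟨th, t0, t3, t1, (card_mono t4).trans (card_img_le _ _)⟩

theorem cof_iff (ha : a.IsOrdinal) (ht : th.IsOrdinal) (t1 : ∀ b ∈ th, DInj Set.univ b a)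
    (t2 : ¬ DInj Set.univ th a) :
    Cof k a ↔ ∃ y, card y ≤ k ∧ y ⊆ th ∧ ∀ x ∈ th, ∃ b ∈ y, x ⊆ b := by
  have key : ∀ x : ZFSet.{u}, x.IsOrdinal →
      ((∃ f, HOD Set.univ f ∧ IsInj x a f) ↔ x ∈ th) := fun x hx => by
    refine ⟨fun ⟨f, f0, f1⟩ => (hx.mem_or_subset ht).resolve_right fun h =>
      t2 ((DInj.of_subset h).trans (H46.dInj_of_od f0.self f1)), fun h => ?_⟩
    obtain ⟨f, f0, f1⟩ := (t1 x h).exists_od hx
    exact ⟨f, hod_sub (hod_prod (hod_ord hx) (hod_ord ha)) f1.1.1 f0, f1⟩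
  exact exists_congr fun y => and_congr_right fun _ =>
    ⟨fun h => ⟨fun b hb => (key b (h.1 b hb).1).1 (h.1 b hb).2,
      fun x hx => h.2 x (ht.mem hx) ((key x (ht.mem hx)).2 hx)⟩,
    fun h => ⟨fun b hb => ⟨ht.mem (h.1 hb), (key b (ht.mem (h.1 hb))).2 (h.1 hb)⟩,
      fun x hx h1 => h.2 x ((key x hx).1 h1)⟩⟩

theorem cfn_of_few (hs : SL a) (ha : Unc a) (sm : StronglyMeasurable Set.univ (succCard a))
    (hc : card (Lev a) ≤ card a) {l : Cardinal.{u}} (hl : l < card a) (h : Few l a (Lev a)) :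
    ∃ L, card L < card a ∧ Cfn a L := by
  have ho := (om_subset_iff ha.1).2 hs.unc.le
  obtain ⟨n, f, hn, f0, f1, f2, f3⟩ := h
  obtain ⟨th, t0, t1, t2, t3⟩ := exists_th ha.1
  obtain ⟨y, y1, y2, y3⟩ : ∃ y, card y < card a ∧ y ⊆ th ∧ ∀ x ∈ th, ∃ b ∈ y, x ⊆ b := by
    by_cases hu : Unc th
    · obtain ⟨c, c1, c2⟩ := hs.cof th th hu subset_rfl (fun x hx => hu.succ hx) (t3.trans hc)
      refine ⟨c, c2, c1.1, fun x hx => ?_⟩
      obtain ⟨b, b1, b2⟩ := c1.2.1 x hx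
      exact ⟨b, b1, (t0.mem (c1.1 b1)).subset_of_mem b2⟩
    · have h1 : ∃ y, y ⊆ th ∧ card y ≤ card om ∧ ∀ c ∈ th, ∃ z ∈ y, z ∉ c := by
        by_contra h1
        refine hu ⟨t0, fun y y1 y2 => by_contra fun h2 => h1 ⟨y, y1, y2, fun c hc => ?_⟩⟩
        exact by_contra fun h3 => h2 ⟨c, hc, fun z hz => by_contra fun h4 => h3 ⟨z, hz, h4⟩⟩
      obtain ⟨y, y1, y2, y3⟩ := h1
      refine ⟨y, y2.trans_lt (card_om.trans_lt hs.unc), y1, fun x hx => ?_⟩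
      obtain ⟨b, b1, b2⟩ := y3 x hx
      exact ⟨b, b1, ((t0.mem (y1 b1)).notMem_iff_subset (t0.mem hx)).1 b2⟩
  have h1 := kp_of (k := max ℵ₀ (max l (card y))) (le_max_left _ _) ha.1 ho hs t0 t1 t2
    ((le_max_right _ _).trans (le_max_right _ _)) y2 y3 hn (small hl.le sm ha.1 hn f3)
    (f3.trans ((le_max_left _ _).trans (le_max_right _ _)))
  have := hod_tm f0
  have h2 : ∀ x ∈ Lev a, _ := fun x hx => leastBy_id (p := fun i => app f i = x) hn (by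
    obtain ⟨r, hr⟩ := f2 x hx
    exact ⟨r, (pair_mem_prod.1 (f1.1 hr)).1, f1.app_eq hr⟩)
  obtain ⟨L, l1, l2⟩ := exists_cfn ha ho (h1.inj (hod_Lev ha.1).self
    ⟨fun x => leastBy n (fun i => i) fun i => app f i = x,
      haveI : Tm Set.univ On (fun _ => n) := Tm.ofOrd hn
      Tm.leastBy n (fun i => i) fun x i => app f i = x, fun x hx => (h2 x hx).1,
      fun x hx z hz e => by rw [← (h2 x hx).2, ← (h2 z hz).2]; exact congrArg _ e⟩)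
  exact ⟨L, l1.trans_lt (max_lt hs.unc (max_lt hl y1)), l2⟩

theorem assemblyM (hg : ℵ₀ ≤ card g) (go : g.IsOrdinal) (h : Good t B a) (hb : BdK g a)
    (hs : SL a) (hr : RealM g t B a) {L v : ZFSet.{u}} (l1 : card L < card a) (hL : Cfn a L)
    (hn : n.IsOrdinal) (hv : CovK g a n v) (hG : G ∈ low t) : HOD Set.univ (ExQ B a n G) := by
  have hP := hod_ord (C := Set.univ) hn
  by_cases h0 : ∃ y, y ∈ n
  · exact lemAM hg hs (hb.unc hg h.ord) go hb l1 hL hP hv ExQ_sub (apxQ h hP (mem_sep.1 hG).2)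
      fun u u1 u2 => hr u v n G u1 u2 hn.isTransitive h0 hv hG
  · have e : ExQ B a n G = ∅ := (eq_empty _).2 fun z hz => by
      obtain ⟨x, -, y, hy, -⟩ := mem_prod.1 (ExQ_sub hz)
      exact h0 ⟨y, hy⟩
    rw [e]
    exact hod_ord isOrdinal_empty

/-- The extender with support `Q`, indexed by a set `n`, is in HOD. -/
theorem extM (hg : ℵ₀ ≤ card g) (go : g.IsOrdinal) (ht : Regular Set.univ t) (hat : a ∈ t)
    (h : Good t B a) (hb : BdK g a) (hs : SL a) (hr : RealM g t B a)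
    (sm : StronglyMeasurable Set.univ (succCard a))
    (hl : ∃ l < card a, Few l a (Lev a)) {Q : ZFSet.{u}} (q0 : HOD Set.univ Q)
    (q1 : Cof (card g) a → Q ∈ vonNeumann t.rank ∧ Few (card g) a Q)
    (q2 : ¬ Cof (card g) a → Succ a (Lev a) ∨ Q ∈ vonNeumann t.rank ∧
      ∃ f, HOD Set.univ f ∧ IsFunc a Q f ∧ ∀ x ∈ Q, ∃ r, pair r x ∈ f) :
    ∃ n f, HOD Set.univ f ∧ IsFunc n Q f ∧ (∀ x ∈ Q, ∃ r, pair r x ∈ f) ∧
      HOD Set.univ (ExQ B a n f) := by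
  have ao := h.ord
  have au := hb.unc hg ao
  have ho := (om_subset_iff ao).2 hs.unc.le
  have hc : card (Lev a) ≤ card a := card_le_of_surj (fun x => B x ∩ vC Set.univ a)
    fun A hA => (h.tr A hA).imp fun x hx => ⟨hx.1, hx.2.symm⟩
  have ga : card g ≤ card a := by
    by_contra h
    obtain ⟨b, b1, b2⟩ := hb a subset_rfl (not_le.1 h).le
    exact mem_irrefl b (b2 b b1)
  obtain ⟨l, hl, hf⟩ := hl
  obtain ⟨L, l1, l2⟩ := cfn_of_few hs au sm hc hl hf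
  by_cases h0 : Cof (card g) a
  · obtain ⟨hQ, n, f, hn, f0, f1, f2, f3⟩ := q1 h0
    obtain ⟨th, t0, t1, t2, -⟩ := exists_th ao
    obtain ⟨y, y1, y2, y3⟩ := (cof_iff ao t0 t1 t2).1 h0
    have m1 := small ga sm ao hn f3
    obtain ⟨v, hv⟩ := (kp_of hg ao ho hs t0 t1 t2 y1 y2 y3 hn m1 f3).cvd ao hn
    exact ⟨n, f, f0, f1, f2, assemblyM hg go h hb hs hr l1 l2 hn hv
      (main_low ht (ht.mem_of_card_lt hn (m1.trans_lt (ht.card_lt hat))) hQ f0 f1)⟩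
  rcases q2 h0 with h1 | ⟨hQ, f, f0, f1, f2⟩
  · rcases assembly_cases h hs h1 with ⟨u, hu⟩ | h2
    · obtain ⟨th, y, t0, t1, t2, y1⟩ := kp_th ao ho (Cvd.cv ao ⟨u, covK_of_cov hg hu⟩)
      exact absurd ((cof_iff ao t0 t1 t2).2 ⟨y, y1⟩) h0
    · have f0 := hod_grA q0 (fun z => z) fun i hi => q0.mem hi
      exact ⟨Q, _, f0, isFunc_gr fun _ hi => hi, fun x hx => ⟨x, pair_mem_gr.2 ⟨hx, rfl⟩⟩,
        h2 Q _ q0 f0⟩
  · obtain ⟨v, hv⟩ := (Cv.self hg (od_iff.2 (Tm.ofOrd ao)) (DInj.of_subset subset_rfl)).cvd ao ao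
    exact ⟨a, f, f0, f1, f2, assemblyM hg go h hb hs hr l1 l2 ao hv (main_low ht hat hQ f0 f1)⟩

theorem mainM {d x t : ZFSet.{u}} {k : Cardinal.{u}} (hd : StronglyCompact d t) (hdt : d ∈ t)
    (hx : x ∈ t) (ht : Regular Set.univ t) (hk : ℵ₀ ≤ k) (hw : ∀ e ∈ t, card e ^ k < card t)
    (hs : ∀ l, x ∈ l → l ⊆ succCard t → Regular Set.univ l → StronglyMeasurable Set.univ l) :
    ∃ c, Club t c ∧ ∀ a ∈ c, (card a).IsStrongLimit →
      ¬ Regular Set.univ (card a).ord.toZFSet →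
      (∀ y, y ⊆ a → card y ≤ k → ∃ b ∈ a, ∀ z ∈ y, z ∈ b) → (∃ l < card a, Few l a (Lev a)) →
      ∃ (N : Set ZFSet.{u}) (j : ZFSet.{u} → ZFSet.{u}), Near t N ∧
        Elem {y | HOD Set.univ y} N j ∧ (∀ y ∈ a, j y = y) ∧ j a = t ∧
        ∀ Q, HOD Set.univ Q → (Cof k a → Q ∈ vonNeumann t.rank ∧ Few k a Q) →
          (¬ Cof k a → Succ a (Lev a) ∨ Q ∈ vonNeumann t.rank ∧
            ∃ f, HOD Set.univ f ∧ IsFunc a Q f ∧ ∀ x ∈ Q, ∃ r, pair r x ∈ f) →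
          ∃ E, HOD Set.univ E ∧ E ⊆ prod (Lev a) Q ∧
            ∀ y z, pair y z ∈ E ↔ y ∈ Lev a ∧ z ∈ Q ∧ z ∈ j y := by
  obtain ⟨g, go, rfl⟩ : ∃ g : ZFSet.{u}, g.IsOrdinal ∧ card g = k :=
    ⟨_, isOrdinal_toZFSet _, card_ord' k⟩
  have hu := unc_of_regular ht
  have hw' : ∀ e ∈ t, card e ^ ℵ₀ < card t := fun e he => by
    by_cases h2 : card e = 0
    · rw [h2]
      exact (zero_power_le _).trans_lt (one_lt_aleph0.trans ht.aleph0_lt)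
    · exact (power_le_power_left h2 hk).trans_lt (hw e he)
  have h5 : ∀ a : ZFSet.{u}, a.IsOrdinal → a ∈ succCard a := fun a ha =>
    mem_succCard.2 ⟨ha, le_rfl⟩
  have h6 : ∀ a : ZFSet.{u}, a.IsOrdinal → x ∈ a → a ⊆ t → ℵ₀ ≤ card a →
      StronglyMeasurable Set.univ (succCard a) := fun a ha h1 h2 h3 =>
    hs _ ((succCard_ord a).mem_trans h1 (h5 a ha)) (fun z hz => mem_succCard.2
      ⟨(mem_succCard.1 hz).1, (mem_succCard.1 hz).2.trans (card_mono h2)⟩) (regular_succCard h3)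
  have hst := hs t hx ((succCard_ord t).subset_of_mem (h5 t ht.1)) ht
  obtain ⟨B, hB⟩ := system hd hdt hst
    (card_Lev (h6 t ht.1 hx subset_rfl ht.aleph0_lt.le) (h5 t ht.1)) hw'
  obtain ⟨c, c1, c2⟩ := (ev_iff hu).1
    (hB.and ((realM hk ht hw (hB.mono fun _ h => h.1)).and (ev_above hu hx)))
  refine ⟨c, c1, fun a ha a1 a2 a3 a4 => ?_⟩
  obtain ⟨⟨G, g1⟩, g2, g3⟩ := not_not.1 fun h => c2 a (mem_sep.2 ⟨c1.1 ha, h⟩) ha
  have au := BdK.unc a3 hk G.ord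
  have sl := sl_of a1 a2 au
  obtain ⟨N, j, n1, n2, n3, n4, n5⟩ := g1 au
  refine ⟨N, j, n1, n2, n3, n4, fun Q q0 q1 q2 => ?_⟩
  obtain ⟨n, f, f0, f1, f2, m3⟩ := extM hk go ht (c1.1 ha) G a3 sl (g2 a3)
    (h6 a G.ord g3 G.sub sl.unc.le) a4 q0 q1 q2
  have := hod_tm f0
  refine ⟨img (fun p => pair (fst p) (app f (snd p))) (ExQ B a n f),
    hod_img m3.self _ fun p hp => ?_, fun w hw => ?_, fun y z => ?_⟩
  · obtain ⟨x, hx, y, hy, rfl⟩ := mem_prod.1 (ExQ_sub hp)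
    rw [fst_pair, snd_pair]
    exact hod_pair ((mem_Lev G.ord).1 hx).2 (hod_app f0 f1 hy)
  · obtain ⟨p, hp, rfl⟩ := mem_img.1 hw
    obtain ⟨x, hx, y, hy, rfl⟩ := mem_prod.1 (ExQ_sub hp)
    rw [fst_pair, snd_pair]
    exact pair_mem_prod.2 ⟨hx, f1.app_mem' hy⟩
  · rw [mem_img]
    constructor
    · rintro ⟨p, hp, e⟩
      obtain ⟨x, -, i, -, rfl⟩ := mem_prod.1 (ExQ_sub hp)
      rw [fst_pair, snd_pair] at e
      obtain ⟨rfl, rfl⟩ := pair_inj.1 e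
      obtain ⟨p1, p2, w, w1, w2, w3⟩ := mem_ExQ.1 hp
      exact ⟨p1, f1.app_mem' p2, by rwa [w2, n5 w w1]⟩
    · rintro ⟨p1, p2, p3⟩
      obtain ⟨i, hi⟩ := f2 z p2
      obtain ⟨w, w1, rfl⟩ := G.tr y p1
      refine ⟨pair _ i, mem_ExQ.2 ⟨p1, (pair_mem_prod.1 (f1.1 hi)).1, w, w1, rfl, ?_⟩, ?_⟩
      · rwa [f1.app_eq hi, ← n5 w w1]
      · rw [fst_pair, snd_pair, f1.app_eq hi]

end Pool.Agent.MP_ecfd11_lc.H46M
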