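import Pool.Agent.MP_ecfd11_lc.H65S.Defs

/-!
The cofinality of a successor cardinal of HOD.
-/

namespace Pool.Agent.MP_ecfd11_lc.H46M

universe u

open ZFSet

/-- The ordinals that have an injection into `a` in HOD have a cofinal subset of size at most `k`:
the successor of `a` in HOD has cofinality at most `k`. -/
def Cof (k : Cardinal.{u}) (a : ZFSet.{u}) : Prop :=
  ∃ y : ZFSet.{u}, card y ≤ k ∧ (∀ b ∈ y, b.IsOrdinal ∧ ∃ f, HOD Set.univ f ∧ IsInj b a f) ∧
    ∀ x : ZFSet.{u}, x.IsOrdinal → (∃ f, HOD Set.univ f ∧ IsInj x a f) → ∃ b ∈ y, x ⊆ b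

end Pool.Agent.MP_ecfd11_lc.H46M
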