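import Pool.Agent.MP_ecfd11_lc.H46M.Real

/-!
A definable countably complete filter on small families of maps.
-/

set_option synthInstance.maxSize 4000

namespace Pool.Agent.MP_ecfd11_lc.H46M

open Pool.Agent.MP_ecfd11_lc.H20 Pool.Agent.MP_ecfd11_lc.H13X Pool.Agent.MP_ecfd11_lc.H3U
  Pool.Agent.MP_ecfd11_lc.H3E Pool.Agent.MP_ecfd11_lc.H65S

universe u

open ZFSet Cardinal Function Filter

variable {g a f x Z F τ c : ZFSet.{u}}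

/-- The maps `a → Lev a` in HOD. -/
noncomputable def GG (a : ZFSet.{u}) : ZFSet.{u} :=
  (powerset (prod a (Lev a))).sep fun f => HOD Set.univ f ∧ IsFunc a (Lev a) f

theorem mem_GG : f ∈ GG a ↔ HOD Set.univ f ∧ IsFunc a (Lev a) f :=
  ⟨fun h => (mem_sep.1 h).2, fun h => mem_sep.2 ⟨mem_powerset.2 h.2.1, h⟩⟩

/-- `P u i` holds for almost all small families `u` and levels `i`. -/
def Ev (g a : ZFSet.{u}) (P : ZFSet.{u} → ZFSet.{u} → Prop) : Prop :=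
  ∃ F, ∃ e, (∀ f, HOD Set.univ f ∧ IsFunc a (Lev a) f → Fam g a (app F f) ∧ app e f ∈ a) ∧
    Null a (a.sep fun i => ¬ ∀ u, Fam g a u → (∃ f, f ∈ u) →
      (∀ f, f ∈ u → app F f ⊆ u ∧ app e f ∈ i) → P u i)

variable {P : ZFSet.{u} → ZFSet.{u} → Prop}

theorem Ev.intro (ha : Unc a) (F e : ZFSet.{u} → ZFSet.{u})
    (h1 : ∀ f ∈ GG a, Fam g a (F f) ∧ e f ∈ a)
    (h2 : ∀ᶠ i in cf a ha, ∀ u, Fam g a u → (∃ f, f ∈ u) →
      (∀ f ∈ u, F f ⊆ u ∧ e f ∈ i) → P u i) : Ev g a P := by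
  refine ⟨gr F (GG a), gr e (GG a), fun f hf => ?_, (ev_iff ha).1 (h2.mono
    fun i hi u u1 u2 u3 => hi u u1 u2 fun f hf => ?_)⟩
  · rw [app_gr (mem_GG.2 hf), app_gr (mem_GG.2 hf)]
    exact h1 f (mem_GG.2 hf)
  · have h := u3 f hf
    rwa [app_gr (mem_GG.2 (u1.2 f hf)), app_gr (mem_GG.2 (u1.2 f hf))] at h

theorem card_nat {k : Cardinal.{u}} (hk : ℵ₀ ≤ k) (A : ℕ → ZFSet.{u}) (h : ∀ m, card (A m) ≤ k) :
    card (⋃₀ range A : ZFSet.{u}) ≤ k := by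
  have h1 := lift_card_range_le (f := A)
  rw [lift_uzero, mk_nat, lift_aleph0] at h1
  have h2 := card_sUnion_img_le (F := fun z => z) (x := range A) (k := k) fun i hi => by
    obtain ⟨m, rfl⟩ := mem_range.1 hi
    exact h m
  refine le_trans (card_mono fun z hz => ?_)
    (h2.trans ((mul_le_mul' (h1.trans hk) le_rfl).trans_eq (mul_eq_self hk)))
  obtain ⟨y, y1, y2⟩ := mem_sUnion.1 hz
  exact mem_sUnion.2 ⟨y, mem_img.2 ⟨y, y1, rfl⟩, y2⟩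

theorem mem_nat {A : ℕ → ZFSet.{u}} : x ∈ (⋃₀ range A : ZFSet.{u}) ↔ ∃ m, x ∈ A m := by
  rw [mem_sUnion]
  constructor
  · rintro ⟨y, y1, y2⟩
    obtain ⟨m, rfl⟩ := mem_range.1 y1
    exact ⟨m, y2⟩
  · exact fun ⟨m, h⟩ => ⟨_, mem_range.2 ⟨m, rfl⟩, h⟩

theorem fam_nat (hg : ℵ₀ ≤ card g) (A : ℕ → ZFSet.{u}) (h : ∀ m, Fam g a (A m)) :
    Fam g a (⋃₀ range A) :=
  ⟨card_nat hg A fun m => (h m).1, fun f hf => by
    obtain ⟨m, hm⟩ := mem_nat.1 hf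
    exact (h m).2 f hm⟩

theorem Ev.nat (hg : ℵ₀ ≤ card g) (ha : Unc a) {P : ℕ → ZFSet.{u} → ZFSet.{u} → Prop}
    (h : ∀ m, Ev g a (P m)) : Ev g a fun u i => ∀ m, P m u i := by
  choose F e h1 h2 using h
  have h3 : ∀ f ∈ GG a, ∃ d ∈ a, ∀ m, app (e m) f ∈ d := fun f hf => by
    obtain ⟨d, d1, d2⟩ := ha.2 (range fun m => app (e m) f)
      (fun z hz => by
        obtain ⟨m, rfl⟩ := mem_range.1 hz
        exact (h1 m f (mem_GG.1 hf)).2)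
      (by
        have h4 := lift_card_range_le (f := fun m => app (e m) f)
        rwa [lift_uzero, mk_nat, lift_aleph0, ← card_om] at h4)
    exact ⟨d, d1, fun m => d2 _ (mem_range.2 ⟨m, rfl⟩)⟩
  choose! d d1 d2 using h3
  refine Ev.intro ha (fun f => ⋃₀ range fun m => app (F m) f) d
    (fun f hf => ⟨fam_nat hg _ fun m => (h1 m f (mem_GG.1 hf)).1, d1 f hf⟩) ?_
  filter_upwards [ev_nat (S := a) ha fun m => (ev_iff ha).2 (h2 m), ev_mem (S := a) ha]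
    with i i1 i2 u u1 u2 u3 m
  exact i1 m u u1 u2 fun f hf => ⟨fun z hz => (u3 f hf).1 (mem_nat.2 ⟨m, hz⟩),
    (ha.1.mem i2.1).mem_trans (d2 f (mem_GG.2 (u1.2 f hf)) m) (u3 f hf).2⟩

theorem Ev.mono {Q : ZFSet.{u} → ZFSet.{u} → Prop} (h : Ev g a P) (h' : ∀ u i, P u i → Q u i) :
    Ev g a Q := by
  obtain ⟨F, e, h1, c, c1, c2⟩ := h
  exact ⟨F, e, h1, c, c1, fun i hi => c2 i (mem_sep.2 ⟨(mem_sep.1 hi).1, fun h2 =>
    (mem_sep.1 hi).2 fun u u1 u2 u3 => h' u i (h2 u u1 u2 u3)⟩)⟩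

theorem fam_empty : Fam g a ∅ :=
  ⟨by rw [card_empty]; exact zero_le, fun f hf => absurd hf (notMem_empty f)⟩

theorem Ev.sup (ha : Unc a) {w : ZFSet.{u}} (hw : Fam g a w) {p : ZFSet.{u} → Prop}
    (hp : ∀ᶠ i in cf a ha, p i) : Ev g a fun u i => Fam g a u ∧ w ⊆ u ∧ (∃ f, f ∈ u) ∧ p i :=
  Ev.intro ha (fun _ => w) (fun _ => ∅) (fun _ _ => ⟨hw, ha.empty_mem⟩)
    (hp.mono fun _ hi _ u1 ⟨f, hf⟩ u3 => ⟨u1, (u3 f hf).1, ⟨f, hf⟩, hi⟩)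

/-- The constant map. -/
noncomputable def cst (a x : ZFSet.{u}) : ZFSet.{u} := gr (fun _ => x) a

theorem cst_GG (ha : a.IsOrdinal) (hx : x ∈ Lev a) :
    HOD Set.univ (cst a x) ∧ IsFunc a (Lev a) (cst a x) := by
  have h := ((mem_Lev ha).1 hx).2
  exact ⟨hod_grA (hod_ord ha) _ (hF := hod_tm h) fun _ _ => h, isFunc_gr fun _ _ => hx⟩

theorem Ev.ex (hg : ℵ₀ ≤ card g) (ha : Unc a) (hb : BdK g a) (h : Ev g a P) : ∃ u i, P u i := by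
  obtain ⟨F, e, h1, h2⟩ := h
  have := neBot (S := a) ha fun ⟨e, e1, e2⟩ => by
    obtain ⟨x, x1, -⟩ := e1.2.1 _ ha.empty_mem
    exact e2 x (e1.1 x1) x1
  let A : ℕ → ZFSet.{u} := fun m =>
    Nat.rec {cst a (low a)} (fun _ w => ⋃₀ img (app F) w) m
  have a1 : ∀ m, Fam g a (A m) := fun m => by
    induction m with
    | zero =>
      exact ⟨card_singleton.trans_le (one_le_aleph0.trans hg),
        fun f hf => mem_singleton.1 hf ▸ cst_GG ha.1 (low_lev ha.1)⟩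
    | succ m ih =>
      refine ⟨(card_sUnion_img_le fun f hf => (h1 f (ih.2 f hf)).1.1).trans
        ((mul_le_mul' ih.1 le_rfl).trans_eq (mul_eq_self hg)), fun f hf => ?_⟩
      obtain ⟨_, y1, y2⟩ := mem_sUnion.1 hf
      obtain ⟨z, hz, rfl⟩ := mem_img.1 y1
      exact (h1 z (ih.2 z hz)).1.2 f y2
  have a2 := fam_nat hg A a1
  obtain ⟨d, d1, d2⟩ := canonK_bdd hb a2.1 (app e) fun f hf => (h1 f (a2.2 f hf)).2
  obtain ⟨i, i1, i2, i3⟩ :=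
    (((ev_iff ha).2 h2).and ((ev_above ha d1).and (ev_mem ha))).exists
  refine ⟨_, i, i1 _ a2 ⟨_, mem_nat.2 ⟨0, mem_singleton.2 rfl⟩⟩ fun f hf =>
    ⟨fun z hz => ?_, (ha.1.mem i3.1).mem_trans (d2 f hf) i2⟩⟩
  obtain ⟨m, hm⟩ := mem_nat.1 hf
  exact mem_nat.2 ⟨m + 1, mem_sUnion.2 ⟨_, mem_img.2 ⟨f, hm, rfl⟩, hz⟩⟩

/-- The filter given by `Ev`. -/
def bf (hg : ℵ₀ ≤ card g) (ha : Unc a) : Filter (ZFSet.{u} × ZFSet.{u}) where
  sets := {X | Ev g a fun u i => (u, i) ∈ X}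
  univ_sets := (Ev.sup ha fam_empty (p := fun _ => True) (Eventually.of_forall
    fun _ => trivial)).mono fun _ _ _ => trivial
  sets_of_superset := fun h1 h2 => Ev.mono h1 fun _ _ h => h2 h
  inter_sets := fun {X Y} h1 h2 => (Ev.nat hg ha
    (P := fun m u i => (u, i) ∈ (Nat.casesOn m X fun _ => Y : Set _))
    fun m => by cases m <;> assumption).mono fun _ _ h => ⟨h 0, h 1⟩

theorem bf_iff (hg : ℵ₀ ≤ card g) (ha : Unc a) {p : ZFSet.{u} × ZFSet.{u} → Prop} :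
    (∀ᶠ z in bf hg ha, p z) ↔ Ev g a fun u i => p (u, i) := Iff.rfl

theorem min_flt {α : Type*} (l : Filter α) [l.NeBot]
    (cc : ∀ p : ℕ → α → Prop, (∀ m, ∀ᶠ z in l, p m z) → ∀ᶠ z in l, ∀ m, p m z)
    (sl : ∀ k < card a, 2 ^ k < card a) (unc : ℵ₀ < card a) (c2 : card c < card a)
    (hZ : HOD Set.univ Z) (hF : OD Set.univ F) (h1 : ∀ σ ∈ F, σ ⊆ Z ∧ Apx a Z σ)
    (f : ZFSet.{u} → α → ZFSet.{u}) (ho : ∀ σ z, (f σ z).IsOrdinal) (ι : ZFSet.{u} → α)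
    (c1 : ∀ᶠ z in l, ∃ i ∈ c, ∀ σ, f σ z = f σ (ι i))
    (hne : ∀ τ ∈ F, ∀ σ ∈ F, τ ≠ σ → ∀ᶠ z in l, f τ z ≠ f σ z)
    (R : ZFSet.{u} → ZFSet.{u} → Prop) [Df Set.univ On (fun v => R (v 0) (v 1))]
    (hR : ∀ τ ∈ F, ∀ σ ∈ F, R τ σ ↔ ∀ᶠ z in l, f τ z ∈ f σ z) :
    ∀ τ ∈ F, HOD Set.univ τ := by
  have := Df.two (C := Set.univ) (A := On) R
  have := od_iff.1 hF
  have wf : WellFounded fun t s => ∀ᶠ i in l, f t i ∈ f s i := by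
    rw [wellFounded_iff_isEmpty_descending_chain]
    refine ⟨fun ⟨G, hG⟩ => ?_⟩
    obtain ⟨i, hi⟩ := (cc (fun m i => f (G (m + 1)) i ∈ f (G m) i) hG).exists
    exact (wellFounded_iff_isEmpty_descending_chain.1 mem_wf).false ⟨fun m => f (G m) i, hi⟩
  intro t ht
  by_contra h0
  obtain ⟨z, ⟨w1, w2⟩, w3⟩ := wf.has_min {t | t ∈ F ∧ ¬ HOD Set.univ t} ⟨t, ht, h0⟩
  obtain ⟨M, hM⟩ : ∃ M, M = F.sep fun t => ¬ HOD Set.univ t ∧
    ∀ s, s ∈ F → ¬ HOD Set.univ s → ¬ R s t := ⟨_, rfl⟩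
  have m1 : ∀ x ∈ M, x ∈ F := fun x hx => (mem_sep.1 (hM ▸ hx)).1
  refine w2 (small_fam (a := a) (F := M) hZ (by rw [hM]; exact od_iff.2 inferInstance)
    (fun x hx => (h1 x (m1 x hx)).1) (sl _ ((er M c (fun σ i => f σ (ι i))
      (fun x _ i _ => ho x _) fun y hy x hx e => ?_).trans_lt (sl _ (max_lt unc c2))))
    (hM ▸ mem_sep.2 ⟨w1, w2, fun s s1 s2 s3 => w3 s ⟨s1, s2⟩ ((hR s s1 z w1).1 s3)⟩) (h1 z w1).2)
  have x3 := (mem_sep.1 (hM ▸ hx : x ∈ _)).2.2 y (m1 y hy) (mem_sep.1 (hM ▸ hy : y ∈ _)).2.1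
  rw [hR y (m1 y hy) x (m1 x hx)] at x3
  obtain ⟨p, i1, i2, i, i3, i4⟩ := ((not_eventually.1 x3).and_eventually
    ((hne y (m1 y hy) x (m1 x hx) e).and c1)).exists
  rcases (ho y p).mem_trichotomous (ho x p) with h | h | h
  exacts [absurd h i1, absurd h i2, ⟨i, i3, by rwa [← i4, ← i4]⟩]

end Pool.Agent.MP_ecfd11_lc.H46M
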