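import Pool.Agent.MP_ecfd11_lc.H46M.Flt

/-!
Sets computed from collapses along almost all small families are in HOD.
-/

set_option synthInstance.maxSize 4000

namespace Pool.Agent.MP_ecfd11_lc.H46M

open Pool.Agent.MP_ecfd11_lc.H20 Pool.Agent.MP_ecfd11_lc.H13X Pool.Agent.MP_ecfd11_lc.H3U
  Pool.Agent.MP_ecfd11_lc.H3E Pool.Agent.MP_ecfd11_lc.H65S

universe u

open ZFSet Cardinal Function Filter

variable {g a f i x X Q L v w τ : ZFSet.{u}} {k : Cardinal.{u}}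

/-- The section of `x` at `i`. -/
noncomputable def sec (a x i : ZFSet.{u}) : ZFSet.{u} :=
  (vC Set.univ a).sep fun z => pair i z ∈ x

theorem sec_lev (ha : a.IsOrdinal) (hx : x ∈ Lev a) (hi : i ∈ a) : sec a x i ∈ Lev a := by
  have h := ((mem_Lev ha).1 hx).2
  have := hod_tm h
  have : Tm Set.univ On (fun _ => a) := Tm.ofOrd ha
  have : Tm Set.univ On (fun _ => i) := Tm.ofOrd (ha.mem hi)
  exact (mem_Lev ha).2 ⟨sep_subset, hod_of (od_iff.2 (by unfold sec; infer_instance))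
    fun z hz => hod_snd h (mem_sep.1 hz).2⟩

theorem sec_code (ha : Unc a) (f0 : HOD Set.univ f) (f1 : IsFunc a (Lev a) f) :
    ∃ x ∈ Lev a, ∀ i ∈ a, sec a x i = app f i := by
  have := hod_tm f0
  have : Tm Set.univ On (fun _ => a) := Tm.ofOrd ha.1
  have h1 : ∀ i ∈ a, _ := fun i hi => (mem_Lev ha.1).1 (f1.app_mem' hi)
  refine ⟨(prod a (vC Set.univ a)).sep fun p => snd p ∈ app f (fst p), (mem_Lev ha.1).2
    ⟨fun p hp => ?_, hod_of (od_iff.2 inferInstance) fun p hp => ?_⟩, fun i hi => ?_⟩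
  · obtain ⟨x, hx, y, hy, rfl⟩ := mem_prod.1 (mem_sep.1 hp).1
    exact (pair_vC ha.1 fun _ => ha.succ).2 ⟨H3E.mem_vC ha.1 hx, hy⟩
  · obtain ⟨p1, p2⟩ := mem_sep.1 hp
    obtain ⟨x, hx, y, -, rfl⟩ := mem_prod.1 p1
    rw [fst_pair, snd_pair] at p2
    exact hod_pair (hod_ord (ha.1.mem hx)) ((h1 x hx).2.mem p2)
  · refine ZFSet.ext fun z => ?_
    simp only [sec, mem_sep, pair_mem_prod, fst_pair, snd_pair]
    exact ⟨fun h => h.2.2, fun h => ⟨(h1 i hi).1 h, ⟨hi, (h1 i hi).1 h⟩, h⟩⟩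

theorem surj_of_dInj (ha : a.IsOrdinal) {W : ZFSet.{u}} (w0 : OD Set.univ W)
    (w1 : DInj Set.univ W a) (φ : ZFSet.{u} → ZFSet.{u}) [Tm Set.univ On (fun v => φ (v 0))]
    (h : ∀ p ∈ W, φ p ∈ Lev a) :
    ∃ G, (HOD Set.univ G ∧ IsFunc a (Lev a) G) ∧ ∀ p ∈ W, ∃ j ∈ a, app G j = φ p := by
  obtain ⟨e, e0, e1, e2⟩ := w1
  have := od_iff.1 w0
  have := Tm.one (C := Set.univ) (A := On) e
  have := Tm.one (C := Set.univ) (A := On) φ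
  have h2 : ∀ p ∈ W, (⋃₀ img φ (W.sep fun z => e z = e p) : ZFSet.{u}) = φ p := fun p hp => by
    refine ZFSet.ext fun z => ⟨fun hz => ?_, fun hz =>
      mem_sUnion.2 ⟨_, mem_img.2 ⟨p, mem_sep.2 ⟨hp, rfl⟩, rfl⟩, hz⟩⟩
    obtain ⟨_, y1, y2⟩ := mem_sUnion.1 hz
    obtain ⟨q, hq, rfl⟩ := mem_img.1 y1
    exact e2 q (mem_sep.1 hq).1 p hp (mem_sep.1 hq).2 ▸ y2
  have h3 : ∀ i ∈ a, (⋃₀ img φ (W.sep fun z => e z = i) : ZFSet.{u}) ∈ Lev a := fun i _ => by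
    by_cases h3 : ∃ p ∈ W, e p = i
    · obtain ⟨p, p1, rfl⟩ := h3
      rw [h2 p p1]
      exact h p p1
    · rw [show (⋃₀ img φ (W.sep fun z => e z = i) : ZFSet.{u}) = ∅ from
        (eq_empty _).2 fun z hz => by
          obtain ⟨_, y1, -⟩ := mem_sUnion.1 hz
          obtain ⟨q, hq, -⟩ := mem_img.1 y1
          exact h3 ⟨q, mem_sep.1 hq⟩]
      exact (mem_Lev ha).2 ⟨empty_subset _, hod_ord isOrdinal_empty⟩
  exact ⟨gr (fun i => ⋃₀ img φ (W.sep fun z => e z = i)) a,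
    ⟨hod_grA (hod_ord ha) _ fun i hi => ((mem_Lev ha).1 (h3 i hi)).2, isFunc_gr h3⟩,
    fun p hp => ⟨e p, e1 p hp, by rw [app_gr (e1 p hp), h2 p hp]⟩⟩

/-- The range of every map `a → Lev a` in HOD is inside the range of a member of `L`. -/
def Cfn (a L : ZFSet.{u}) : Prop :=
  (∀ G ∈ L, HOD Set.univ G ∧ IsFunc a (Lev a) G) ∧ ∀ f, HOD Set.univ f → IsFunc a (Lev a) f →
    ∃ G ∈ L, ∀ i ∈ a, ∃ j ∈ a, app G j = app f i

theorem exists_cfn (ha : Unc a) (ho : om ⊆ a) (h : Cv k a (Lev a)) :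
    ∃ L, card L ≤ k ∧ Cfn a L := by
  obtain ⟨U, u1, u2, u3⟩ := h
  have : Tm Set.univ On (fun _ => a) := Tm.ofOrd ha.1
  have := hod_tm (hod_Lev ha.1)
  have h1 : ∀ W ∈ U, ∃ G, (HOD Set.univ G ∧ IsFunc a (Lev a) G) ∧
      ∀ p ∈ prod (W ∩ Lev a) a, ∃ j ∈ a, app G j = sec a (fst p) (snd p) := fun W hW => by
    have := od_iff.1 (u2 W hW).1
    have : Tm Set.univ On (fun v => sec a (fst (v 0)) (snd (v 0))) := by
      unfold sec; infer_instance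
    refine surj_of_dInj ha.1 (od_iff.2 inferInstance)
      ((((DInj.of_subset fun z hz => (mem_inter.1 hz).1).trans (u2 W hW).2).prod
        (DInj.of_subset subset_rfl)).trans (DInj.pairing ha.1 ho))
      (fun p => sec a (fst p) (snd p)) fun p hp => ?_
    obtain ⟨x, hx, y, hy, rfl⟩ := mem_prod.1 hp
    rw [fst_pair, snd_pair]
    exact sec_lev ha.1 (mem_inter.1 hx).2 hy
  choose! G g1 g2 using h1
  refine ⟨img G U, (card_img_le _ _).trans u1, fun f hf => ?_, fun f f0 f1 => ?_⟩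
  · obtain ⟨W, hW, rfl⟩ := mem_img.1 hf
    exact g1 W hW
  · obtain ⟨x, x1, x2⟩ := sec_code ha f0 f1
    obtain ⟨W, w1, w2⟩ := u3 x x1
    refine ⟨_, mem_img.2 ⟨W, w1, rfl⟩, fun i hi => ?_⟩
    have h2 := g2 W w1 (pair x i) (pair_mem_prod.2 ⟨mem_inter.2 ⟨w2, x1⟩, hi⟩)
    rwa [fst_pair, snd_pair, x2 i hi] at h2

theorem ev_small (hg : ℵ₀ ≤ card g) (ha : Unc a) (hL : Cfn a L) : Ev g a fun u i =>
    ∀ b ∈ a, i ∈ b → Clo a (u ∩ L) b → ∀ x, InP u b x → InP (u ∩ L) b x := by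
  have h1 : ∀ f ∈ GG a, ∃ G ∈ L, ∃ G' ∈ L, ∃ j ∈ a, IsFunc a a (app G' j) ∧
      ∀ i ∈ a, app G (app (app G' j) i) = app f i := fun f hf => by
    obtain ⟨f0, f1⟩ := mem_GG.1 hf
    obtain ⟨G, g1, g2⟩ := hL.2 f f0 f1
    obtain ⟨h, h1, h2, h3⟩ := canon_fun ha f0 (hL.1 G g1).1
    obtain ⟨G', g3, g4⟩ := hL.2 _ (cst_GG ha.1 h1).1 (cst_GG ha.1 h1).2
    obtain ⟨j, j1, j2⟩ := g4 _ ha.empty_mem
    rw [cst, app_gr ha.empty_mem] at j2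
    exact ⟨G, g1, G', g3, j, j1, j2 ▸ h2, fun i hi => j2 ▸ h3 i hi (g2 i hi)⟩
  choose! G g1 G' g2 j j1 j2 j3 using h1
  refine Ev.intro ha (fun f => {G f, G' f}) j (fun f hf => ⟨⟨card_insert_le.trans
    (add_le_of_le hg (card_singleton.trans_le (one_le_aleph0.trans hg))
      (one_le_aleph0.trans hg)), fun z hz => ?_⟩, j1 f hf⟩)
    (Eventually.of_forall fun i u u1 _ u3 b hb hi hc x ⟨f, hf, n, hn, hx⟩ => ?_)
  · rcases mem_pair.1 hz with rfl | rfl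
    exacts [hL.1 _ (g1 f hf), hL.1 _ (g2 f hf)]
  · have f0 := mem_GG.2 (u1.2 f hf)
    have f1 := (u1.2 f hf).2
    have na := (pair_mem_prod.1 (f1.1 hx)).1
    have k1 := (hL.1 _ (g1 f f0)).2
    have k2 := (hL.1 _ (g2 f f0)).2
    have h2 := hc _ ⟨G' f, mem_inter.2 ⟨(u3 f hf).1 (mem_pair.2 (Or.inr rfl)), g2 f f0⟩, j f,
      (ha.1.mem hb).mem_trans (u3 f hf).2 hi, k2.app_mem (j1 f f0)⟩ (j2 f f0) n hn _
      ((j2 f f0).app_mem na)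
    refine ⟨G f, mem_inter.2 ⟨(u3 f hf).1 (mem_pair.2 (Or.inl rfl)), g1 f f0⟩, _, h2, ?_⟩
    have h3 := k1.app_mem ((j2 f f0).app_mem' na)
    rwa [j3 f f0 n na, f1.app_eq hx] at h3

theorem ev_cst (ha : Unc a) {s : ZFSet.{u}} (h1 : card s ≤ card g) (h2 : s ⊆ Lev a) :
    Ev g a fun u i => ∀ b, i ∈ b → ∀ x ∈ s, InP u b x :=
  (Ev.sup ha (w := img (cst a) s) ⟨(card_img_le _ _).trans h1, fun f hf => by
    obtain ⟨x, hx, rfl⟩ := mem_img.1 hf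
    exact cst_GG ha.1 (h2 hx)⟩ (ev_mem (S := a) ha)).mono fun _ i h _ hb x hx =>
      ⟨_, h.2.1 (mem_img.2 ⟨x, hx, rfl⟩), i, hb, pair_mem_gr.2 ⟨h.2.2.2.1, rfl⟩⟩

theorem canonM (hg : ℵ₀ ≤ card g) (ha : Unc a) (hv : CovK g a X v) (hw : CovK g a X w) :
    Ev g a fun u i => ∀ b, i ∈ b → Clo a u b → ∀ x, InP v b x → InP w b x := by
  choose! h h1 h2 h3 using fun p (hp : p ∈ prod v w) => canon_fun (g := fst p) (g' := snd p) ha
    (by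
      obtain ⟨x, hx, y, -, rfl⟩ := mem_prod.1 hp
      exact (fst_pair x y).symm ▸ (hv.2.1 x hx).1)
    (by
      obtain ⟨x, -, y, hy, rfl⟩ := mem_prod.1 hp
      exact (snd_pair x y).symm ▸ (hw.2.1 y hy).1)
  refine (ev_cst ha (s := img h (prod v w)) ((card_img_le _ _).trans ((card_prod_le _ _).trans
    ((mul_le_mul' hv.1 hw.1).trans_eq (mul_eq_self hg)))) fun z hz => ?_).mono
    fun u i k1 b hb hc x ⟨f, hf, n, hn, hx⟩ => ?_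
  · obtain ⟨p, hp, rfl⟩ := mem_img.1 hz
    exact h1 p hp
  · have g1 := (hv.2.1 f hf).2
    obtain ⟨na, hxX⟩ := pair_mem_prod.1 (g1.1 hx)
    obtain ⟨f', hf', j, hj⟩ := hw.2.2 x hxX
    have g2 := (hw.2.1 f' hf').2
    have hp := pair_mem_prod.2 ⟨hf, hf'⟩
    have h6 := hc _ (k1 b hb _ (mem_img.2 ⟨_, hp, rfl⟩)) (h2 _ hp) n hn _ ((h2 _ hp).app_mem na)
    have h7 := h3 _ hp n na
    rw [fst_pair, snd_pair] at h7
    refine ⟨f', hf', _, h6, ?_⟩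
    have h8 := g2.app_mem ((h2 _ hp).app_mem' na)
    rwa [h7 ⟨j, (pair_mem_prod.1 (g2.1 hj)).1, (g2.app_eq hj).trans (g1.app_eq hx).symm⟩,
      g1.app_eq hx] at h8

theorem inTK_v {u b σ h : ZFSet.{u}} (k1 : ∀ x, InP v b x → InP w b x)
    (k2 : ∀ x, InP w b x → InP v b x) (t : InTK a u v σ b h) : InTK a u w σ b h := by
  obtain ⟨t1, p, t2, t3⟩ := t
  refine ⟨t1, p, fun y hy z => (t2 y (k2 y hy) z).trans ?_, fun x y hx hy => t3 x y hx (k2 y hy)⟩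
  exact exists_congr fun s => and_congr_right fun _ => and_congr_left fun _ => ⟨k1 s, k2 s⟩

theorem inTK_u {u u' b σ h : ZFSet.{u}} (k1 : ∀ x, InP u' b x → InP u b x)
    (t : InTK a u v σ b h) : InTK a u' v σ b h :=
  ⟨fun f hf => t.1 f (k1 f hf), t.2.imp fun _ h => ⟨h.1, fun x y hx => h.2 x y (k1 x hx)⟩⟩

/-- The least value of `k` at a pair that computes `σ`. -/
noncomputable def mn (k : ZFSet.{u} → ZFSet.{u}) (m a v σ u i : ZFSet.{u}) : ZFSet.{u} :=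
  m.sep fun o => ∀ b, ∀ h, (b ∈ a ∧ h ∈ low a ∧ i ∈ b ∧ InTK a u v σ b h) → o ∈ k (pair b h)

theorem mn_congr {k : ZFSet.{u} → ZFSet.{u}} {m σ u u' : ZFSet.{u}}
    (h : ∀ b ∈ a, i ∈ b → ∀ h, InTK a u v σ b h ↔ InTK a u' w σ b h) :
    mn k m a v σ u i = mn k m a w σ u' i :=
  ZFSet.ext fun o => by
    simp only [mn, mem_sep]
    exact and_congr_right fun _ => forall_congr' fun b => forall_congr' fun l => imp_congr_left
      (and_congr_right fun h1 => and_congr_right fun _ => and_congr_right fun h2 => h b h1 h2 l)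

theorem mn_ord {k : ZFSet.{u} → ZFSet.{u}} {m σ u : ZFSet.{u}} (mo : m.IsOrdinal)
    (k1 : ∀ x ∈ prod a (low a), k x ∈ m) : (mn k m a v σ u i).IsOrdinal :=
  ⟨fun x hx y hy => mem_sep.2 ⟨mo.mem_trans hy (mem_sep.1 hx).1, fun b h t =>
    (mo.mem (k1 _ (pair_mem_prod.2 ⟨t.1, t.2.1⟩))).mem_trans hy ((mem_sep.1 hx).2 b h t)⟩,
    fun h1 h2 h3 => (mo.mem (mem_sep.1 h3).1).mem_trans h1 h2⟩

theorem mn_eq {k : ZFSet.{u} → ZFSet.{u}} {m σ u : ZFSet.{u}} (mo : m.IsOrdinal)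
    (k1 : ∀ x ∈ prod a (low a), k x ∈ m)
    (h : ∃ b h, b ∈ a ∧ h ∈ low a ∧ i ∈ b ∧ InTK a u v σ b h) :
    ∃ b h, (b ∈ a ∧ h ∈ low a ∧ i ∈ b ∧ InTK a u v σ b h) ∧ mn k m a v σ u i = k (pair b h) := by
  obtain ⟨b, l, h1, h2⟩ := lemAK_min (fun x y => k (pair x y)) h
  have h3 := k1 _ (pair_mem_prod.2 ⟨h1.1, h1.2.1⟩)
  exact ⟨b, l, h1, ZFSet.ext fun o => ⟨fun h => (mem_sep.1 h).2 b l h1, fun h => mem_sep.2
    ⟨mo.mem_trans h h3, fun z w t => ((mo.mem (k1 _ (pair_mem_prod.2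
      ⟨t.1, t.2.1⟩))).notMem_iff_subset (mo.mem h3)).1 (h2 z w t) h⟩⟩⟩

instance Df.fam (q s : (ℕ → ZFSet.{u}) → ZFSet.{u}) [Tm Set.univ On q] [Tm Set.univ On s]
    {a : ZFSet.{u}} [Tm Set.univ On fun _ => Lev a]
    [Tm Set.univ On fun _ => a] : Df Set.univ On (fun v => Fam (q v) a (s v)) := by
  unfold Fam; infer_instance

theorem lemAM (hg : ℵ₀ ≤ card g) (hs : SL a) (ha : Unc a) (go : g.IsOrdinal) (hb : BdK g a)
    (l1 : card L < card a) (hL : Cfn a L) (hQ : HOD Set.univ Q) (hv : CovK g a Q v)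
    (h1 : τ ⊆ prod (Lev a) Q) (h2 : Apx a (prod (Lev a) Q) τ)
    (h3 : ∀ u, Fam g a u → (∃ f, f ∈ u) →
      ∀ i ∈ a, ∃ b ∈ a, i ∈ b ∧ ∃ h ∈ low a, InTK a u v τ b h) : HOD Set.univ τ := by
  obtain ⟨c, c1, c2⟩ := hs.cof a a ha subset_rfl (fun x hx => ha.succ hx) le_rfl
  have hZ := hod_prod (hod_Lev ha.1) hQ
  have hD := hod_prod (hod_ord ha.1) ((mem_Lev ha.1).1 (low_lev ha.1)).2
  obtain ⟨m, mo, k, k0, k1, k2⟩ := od_rank (prod a (low a)) fun x hx => (hD.mem hx).self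
  have := Tm.one (C := Set.univ) (A := On) k
  have : Tm Set.univ On (fun _ => a) := Tm.ofOrd ha.1
  have : Tm Set.univ On (fun _ => g) := Tm.ofOrd go
  have : Tm Set.univ On (fun _ => m) := Tm.ofOrd mo
  have := tm_low ha.1
  have := hod_tm (hod_Lev ha.1)
  have := hod_tm hQ
  have : (bf hg ha).NeBot := ⟨fun e => by
    obtain ⟨_, _, h⟩ := ((bf_iff hg ha (p := fun _ => False)).1
      (by rw [e]; exact eventually_bot)).ex hg ha hb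
    exact h⟩
  obtain ⟨F, hF⟩ : ∃ F : ZFSet.{u}, F = (powerset (prod (Lev a) Q)).sep fun σ =>
      Apx a (prod (Lev a) Q) σ ∧ ∃ v', CovK g a Q v' ∧ ∀ u, Fam g a u → (∃ f, f ∈ u) →
        ∀ i, i ∈ a → ∃ b, b ∈ a ∧ i ∈ b ∧ ∃ h, h ∈ low a ∧ InTK a u v' σ b h := ⟨_, rfl⟩
  have f0 : OD Set.univ F := od_iff.2 (hF ▸ inferInstance)
  have f1 : ∀ σ ∈ F, σ ⊆ prod (Lev a) Q ∧ Apx a (prod (Lev a) Q) σ := fun σ h => by
    rw [hF] at h
    exact ⟨mem_powerset.1 (mem_sep.1 h).1, (mem_sep.1 h).2.1⟩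
  have ind : ∀ v', CovK g a Q v' → ∀ᶠ z in bf hg ha, ∀ σ b, z.2 ∈ b → ∀ h,
      InTK a z.1 v' σ b h ↔ InTK a z.1 v σ b h := fun v' hv' => by
    filter_upwards [(bf_iff hg ha (p := fun z => ∀ b, z.2 ∈ b → Clo a z.1 b →
      ∀ x, InP v b x → InP v' b x)).2 (canonM hg ha hv hv'), (bf_iff hg ha (p := fun z =>
      ∀ b, z.2 ∈ b → Clo a z.1 b → ∀ x, InP v' b x → InP v b x)).2 (canonM hg ha hv' hv)]
      with z z1 z2 σ b hb h
    exact ⟨fun t => inTK_v (z2 b hb t.1) (z1 b hb t.1) t,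
      fun t => inTK_v (z1 b hb t.1) (z2 b hb t.1) t⟩
  have up : ∀ {p : ZFSet.{u} → Prop}, (∀ᶠ i in cf a ha, p i) → ∀ᶠ z in bf hg ha,
      Fam g a z.1 ∧ ∅ ⊆ z.1 ∧ (∃ f, f ∈ z.1) ∧ p z.2 := fun h => Ev.sup ha fam_empty h
  have f2 : ∀ σ ∈ F, ∀ᶠ z in bf hg ha,
      ∃ b h, b ∈ a ∧ h ∈ low a ∧ z.2 ∈ b ∧ InTK a z.1 v σ b h := fun σ h => by
    rw [hF] at h
    obtain ⟨-, -, v', hv', h⟩ := mem_sep.1 h
    filter_upwards [ind v' hv', up (ev_mem (S := a) ha)] with z z1 z2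
    obtain ⟨b, b1, b2, l, b3, b4⟩ := h _ z2.1 z2.2.2.1 _ z2.2.2.2.1
    exact ⟨b, l, b1, b3, b2, (z1 σ b b2 l).1 b4⟩
  obtain ⟨R, hR⟩ : ∃ R : ZFSet.{u} → ZFSet.{u} → Prop, R = fun ρ σ => ∃ v', CovK g a Q v' ∧
      Ev g a fun u i => mn k m a v' ρ u i ∈ mn k m a v' σ u i := ⟨_, rfl⟩
  have : Df Set.univ On (fun v => R (v 0) (v 1)) := by
    rw [hR]
    unfold Ev mn
    infer_instance
  refine min_flt (bf hg ha) (fun p hp => Ev.nat hg ha (P := fun n u i => p n (u, i)) hp) hs.sl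
    hs.unc (c := prod (powerset L) c) ((card_prod_le _ _).trans_lt
      (mul_lt_of_lt hs.unc.le (by rw [card_powerset]; exact hs.sl _ l1) c2)) hZ f0 f1
    (fun σ z => mn k m a v σ z.1 z.2) (fun _ _ => mn_ord mo k1) (fun i => (fst i, snd i)) ?_
    (fun ρ hρ σ hσ hne => ?_) R (fun ρ hρ σ hσ => ?_) τ
    (hF ▸ mem_sep.2 ⟨mem_powerset.2 h1, h2, v, hv, h3⟩)
  · filter_upwards [(bf_iff hg ha (p := fun z => ∀ b ∈ a, z.2 ∈ b → Clo a (z.1 ∩ L) b →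
      ∀ x, InP z.1 b x → InP (z.1 ∩ L) b x)).2 (ev_small hg ha hL),
      up (ev_club (S := a) ha c1)] with z z1 z2
    refine ⟨pair (z.1 ∩ L) z.2, pair_mem_prod.2 ⟨mem_powerset.2 fun y hy => (mem_inter.1 hy).2,
      z2.2.2.2⟩, fun σ => ?_⟩
    simp only [fst_pair, snd_pair]
    exact mn_congr fun b b1 b2 h => ⟨inTK_u fun x ⟨f, f1, f2⟩ => ⟨f, (mem_inter.1 f1).1, f2⟩,
      fun t => inTK_u (z1 b b1 b2 t.1) t⟩
  · obtain ⟨x, y, hx, hy, h⟩ : ∃ x y, x ∈ Lev a ∧ y ∈ Q ∧ ¬ (pair x y ∈ ρ ↔ pair x y ∈ σ) := by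
      by_contra h
      refine hne (ZFSet.ext fun z => ⟨fun hz => ?_, fun hz => ?_⟩)
      · obtain ⟨x, hx, y, hy, rfl⟩ := mem_prod.1 ((f1 ρ hρ).1 hz)
        exact by_contra fun h' => h ⟨x, y, hx, hy, fun e => h' (e.1 hz)⟩
      · obtain ⟨x, hx, y, hy, rfl⟩ := mem_prod.1 ((f1 σ hσ).1 hz)
        exact by_contra fun h' => h ⟨x, y, hx, hy, fun e => h' (e.2 hz)⟩
    obtain ⟨j, j1, j2⟩ := lemAK_inP hv hy
    filter_upwards [f2 ρ hρ, f2 σ hσ, up (ev_above (S := a) ha j1), (bf_iff hg ha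
      (p := fun z => ∀ b, z.2 ∈ b → ∀ y ∈ ({x} : ZFSet.{u}), InP z.1 b y)).2 (ev_cst ha
        (card_singleton.trans_le (one_le_aleph0.trans hg))
        fun y hy => mem_singleton.1 hy ▸ hx)] with z z1 z2 z3 z4 e
    obtain ⟨b, l, ⟨p1, p2, p3, -, p, p4, p5⟩, e1⟩ := mn_eq mo k1 z1
    obtain ⟨b', l', ⟨q1, q2, -, -, q, q4, q5⟩, e2⟩ := mn_eq mo k1 z2
    obtain ⟨rfl, rfl⟩ := pair_inj.1 (k2 _ (pair_mem_prod.2 ⟨p1, p2⟩) _ (pair_mem_prod.2 ⟨q1, q2⟩)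
      (e1.symm.trans (e.trans e2)))
    have x1 := z4 b p3 x (mem_singleton.2 rfl)
    have y1 := j2 _ ((ha.1.mem p1).mem_trans z3.2.2.2 p3)
    refine h ((p5 x y x1 y1).trans ?_)
    rw [p4.unique q4 y y1]
    exact (q5 x y x1 y1).symm
  · rw [hR]
    refine ⟨fun ⟨v', hv', h⟩ => ?_, fun h => ⟨v, hv, h⟩⟩
    filter_upwards [(bf_iff hg ha (p := fun z =>
      mn k m a v' ρ z.1 z.2 ∈ mn k m a v' σ z.1 z.2)).2 h, ind v' hv'] with z z1 z2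
    rwa [mn_congr fun b _ b2 => z2 ρ b b2, mn_congr fun b _ b2 => z2 σ b b2] at z1

end Pool.Agent.MP_ecfd11_lc.H46M
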