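import Pool.Agent.MP_ecfd11_lc.H65S.Main
import Pool.Agent.MP_ecfd11_lc.H46M.Defs

/-!
Reflection of the long extenders along small families of maps.
-/

set_option synthInstance.maxSize 4000

namespace Pool.Agent.MP_ecfd11_lc.H46M

open Pool.Agent.MP_ecfd11_lc.H20 Pool.Agent.MP_ecfd11_lc.H13X Pool.Agent.MP_ecfd11_lc.H3U
  Pool.Agent.MP_ecfd11_lc.H3E Pool.Agent.MP_ecfd11_lc.H65S

universe u

open ZFSet Cardinal Function Filter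

variable {g t a b : ZFSet.{u}} {B : ZFSet.{u} → ZFSet.{u}} {κ : Type u}

/-- `u` is a set of at most `g` functions `a → Lev a` in HOD. -/
def Fam (g a u : ZFSet.{u}) : Prop :=
  card u ≤ card g ∧ ∀ f, f ∈ u → HOD Set.univ f ∧ IsFunc a (Lev a) f

/-- The extenders at `a` are computed from collapses along every small family of maps. -/
def RealM (g t : ZFSet.{u}) (B : ZFSet.{u} → ZFSet.{u}) (a : ZFSet.{u}) : Prop :=
  ∀ u v Q G : ZFSet.{u}, Fam g a u → (∃ f, f ∈ u) → Q.IsTransitive → (∃ y, y ∈ Q) →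
    CovK g a Q v → G ∈ low t →
    ∀ i ∈ a, ∃ b ∈ a, i ∈ b ∧ ∃ h ∈ low a, InTK a u v (ExQ B a Q G) b h

/-- The families `U`, `V` of functions on `a` are coded by the indices `j`. -/
structure CodedM (B : ZFSet.{u} → ZFSet.{u}) (a Q G : ZFSet.{u}) (U V : κ → ZFSet.{u})
    (j : κ ⊕ (κ × κ) ⊕ (κ × κ) → ZFSet.{u}) : Prop where
  u1 : ∀ m, IsFunc a (Lev a) (U m)
  v1 : ∀ k, IsFunc a Q (V k)
  v2 : ∀ y ∈ Q, ∃ k i, pair i y ∈ V k
  tr : Q.IsTransitive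
  c1 : ∀ m, ∀ i ∈ a, ∀ x ∈ a, app (U m) i = B x ∩ vC Set.univ a →
    ∀ z, z ∈ B x ↔ pair i z ∈ B (j (.inl m))
  c2 : ∀ k l, ∀ i ∈ a, ∀ i' ∈ a,
    app (V l) i' ∈ app (V k) i ↔ pair i i' ∈ B (j (.inr (.inl (k, l))))
  c3 : ∀ k m, ∀ i ∈ a, ∀ i' ∈ a,
    pair i' (app G (app (V k) i)) ∈ B (j (.inl m)) ↔ pair i i' ∈ B (j (.inr (.inr (k, m))))

theorem exists_codedM (h : Good t B a) {Q G : ZFSet.{u}} (hG : HOD Set.univ G)
    {U V : κ → ZFSet.{u}}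
    (u0 : ∀ m, HOD Set.univ (U m)) (u1 : ∀ m, IsFunc a (Lev a) (U m))
    (v0 : ∀ k, HOD Set.univ (V k))
    (v1 : ∀ k, IsFunc a Q (V k)) (v2 : ∀ y ∈ Q, ∃ k i, pair i y ∈ V k) (tr : Q.IsTransitive) :
    ∃ j, (∀ k, j k ∈ a) ∧ CodedM B a Q G U V j := by
  choose w w1 w2 using fun m => h.code (u0 m) (u1 m)
  choose r r1 r2 using fun q : κ × κ => exists_coded_mem h (v0 q.2) (v0 q.1)
  choose o o1 o2 using fun q : κ × κ => exists_codedK_sec h (h.hod _ (w1 q.2)) hG (v0 q.1)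
  refine ⟨Sum.elim w (Sum.elim r o), ?_, u1, v1, v2, tr, w2, fun k m => r2 (k, m),
    fun k m => o2 (k, m)⟩
  rintro (m | q | q)
  · exact w1 m
  · exact r1 q
  · exact o1 q

section
variable {Q Q' G G' : ZFSet.{u}} {U V U' V' : κ → ZFSet.{u}}
  {j : κ ⊕ (κ × κ) ⊕ (κ × κ) → ZFSet.{u}}

theorem reflectM_key (ha : Good t B a) (hb : Good t B b) (hs : b ⊆ a)
    (h1 : CodedM B a Q G U V j) (h2 : CodedM B b Q' G' U' V' j) (m : κ) {i : ZFSet.{u}}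
    (hi : i ∈ b) : ∃ x ∈ b, app (U m) i = B x ∩ vC Set.univ a ∧
      ∀ z, z ∈ B x ↔ pair i z ∈ B (j (.inl m)) := by
  obtain ⟨x, hx, e⟩ := hb.tr _ ((h2.u1 m).app_mem' hi)
  obtain ⟨y, hy, e'⟩ := ha.tr _ ((h1.u1 m).app_mem' (hs hi))
  have k := h2.c1 m i hi x hx e
  have k' := h1.c1 m i (hs hi) y hy e'
  have e2 : B y = B x := ZFSet.ext fun z => (k' z).trans (k z).symm
  exact ⟨x, hx, e2 ▸ e', k⟩

theorem reflectM_clp (hs : b ⊆ a) (h1 : CodedM B a Q G U V j) (h2 : CodedM B b Q' G' U' V' j)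
    {v : ZFSet.{u}} (hv : ∀ f, f ∈ v ↔ ∃ k, V k = f) :
    ∃ p, Clp v b p ∧ ∀ k, ∀ i ∈ b, app p (app (V k) i) = app (V' k) i := by
  have e1 : ∀ k, ∀ i ∈ b, ∀ l, ∀ n ∈ b,
      app (V l) n ∈ app (V k) i ↔ app (V' l) n ∈ app (V' k) i := fun k i hi l n hn =>
    (h1.c2 k l i (hs hi) n (hs hn)).trans (h2.c2 k l i hi n hn).symm
  have e2 : ∀ k, ∀ i ∈ b, ∀ z ∈ app (V' k) i, z ∈ Q' ∧ ∃ l, ∃ n ∈ b, app (V' l) n = z :=
    fun k i hi z hz => by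
      have hq : z ∈ Q' := h2.tr.mem_trans hz ((h2.v1 k).app_mem' hi)
      obtain ⟨l, n, hp⟩ := h2.v2 z hq
      exact ⟨hq, l, n, reflect_app (h2.v1 l) hp⟩
  have e3 : ∀ k, ∀ i ∈ b, app (gr (fun y => Q'.sep fun z =>
      ∃ l, ∃ n ∈ b, app (V l) n = y ∧ z ∈ app (V' l) n) Q) (app (V k) i) = app (V' k) i :=
    fun k i hi => by
      rw [app_gr ((h1.v1 k).app_mem' (hs hi))]
      refine ZFSet.ext fun z => ?_
      rw [mem_sep]
      refine ⟨?_, fun hz => ⟨(e2 k i hi z hz).1, k, i, hi, rfl, hz⟩⟩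
      rintro ⟨-, l, n, hn, e, hz⟩
      obtain ⟨-, r, s, hs', rfl⟩ := e2 l n hn z hz
      exact (e1 k i hi r s hs').1 (e ▸ (e1 l n hn r s hs').2 hz)
  refine ⟨_, fun y hy w => ?_, e3⟩
  obtain ⟨k, i, hi, rfl⟩ := (reflectK_inP hs h1.v1 hv).1 hy
  rw [e3 k i hi]
  constructor
  · intro hw
    obtain ⟨-, l, n, hn, rfl⟩ := e2 k i hi w hw
    exact ⟨app (V l) n, (e1 k i hi l n hn).2 hw, (reflectK_inP hs h1.v1 hv).2 ⟨l, n, hn, rfl⟩,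
      e3 l n hn⟩
  · rintro ⟨z, z1, z2, rfl⟩
    obtain ⟨l, n, hn, rfl⟩ := (reflectK_inP hs h1.v1 hv).1 z2
    rw [e3 l n hn]
    exact (e1 k i hi l n hn).1 z1

end

theorem reflectM (ha : Good t B a) (hb : Good t B b) (hba : b ∈ a) {Q Q' G G' : ZFSet.{u}}
    (hG : G' ∈ low a) {U V U' V' : κ → ZFSet.{u}}
    {j : κ ⊕ (κ × κ) ⊕ (κ × κ) → ZFSet.{u}} (h1 : CodedM B a Q G U V j)
    (h2 : CodedM B b Q' G' U' V' j) {u v : ZFSet.{u}} (hu : ∀ f, f ∈ u ↔ ∃ m, U m = f)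
    (hv : ∀ f, f ∈ v ↔ ∃ k, V k = f) : InTK a u v (ExQ B a Q G) b G' := by
  have hs : b ⊆ a := ha.ord.subset_of_mem hba
  obtain ⟨p, p1, p2⟩ := reflectM_clp hs h1 h2 hv
  refine ⟨fun h hh hf i hi z hz => ?_, p, p1, fun x y hx hy => ?_⟩
  · obtain ⟨m, n, hn, rfl⟩ := (reflectK_inP hs h1.u1 hu).1 hh
    obtain ⟨x, hx, e, -⟩ := reflectM_key ha hb hs h1 h2 m hn
    have z1 : z ∈ a := (pair_mem_prod.1 (hf.1 hz)).2
    obtain ⟨w, hw, w1⟩ := hb.s1 x hx i hi ⟨z, ha.sub z1, (mem_inter.1 (e ▸ hz)).1⟩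
    have w2 : pair i w ∈ app (U m) n := e ▸ mem_inter.2 ⟨w1,
      (pair_vC ha.ord ha.lim).2 ⟨H3E.mem_vC ha.ord (hs hi), H3E.mem_vC ha.ord (hs hw)⟩⟩
    exact (hf.2 i (hs hi)).unique w2 hz ▸ hw
  · obtain ⟨m, n, hn, rfl⟩ := (reflectK_inP hs h1.u1 hu).1 hx
    obtain ⟨k, i, hi, rfl⟩ := (reflectK_inP hs h1.v1 hv).1 hy
    obtain ⟨x, hx, e, c⟩ := reflectM_key ha hb hs h1 h2 m hn
    have e1 : app G (app (V k) i) ∈ B x ↔ app G' (app (V' k) i) ∈ B x :=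
      ((c _).trans (h1.c3 k m i (hs hi) n (hs hn))).trans
        ((c _).trans (h2.c3 k m i hi n hn)).symm
    rw [p2 k i hi, mem_ExQ]
    constructor
    · rintro ⟨-, -, w, hw, w1, w2⟩
      rw [ha.s0 w hw x (hs hx) (w1.symm.trans e)] at w2
      exact e ▸ mem_inter.2 ⟨e1.1 w2, reflectK_app ha.ord hG⟩
    · intro h
      exact ⟨(h1.u1 m).app_mem' (hs hn), (h1.v1 k).app_mem' (hs hi), x, hs hx, e,
        e1.2 (mem_inter.1 (e ▸ h)).1⟩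

theorem realM (hg : ℵ₀ ≤ card g) (ht : Regular Set.univ t)
    (hw : ∀ e ∈ t, card e ^ card g < card t)
    (h : ∀ᶠ L in cf t (unc_of_regular ht), Good t B L) :
    ∀ᶠ a in cf t (unc_of_regular ht), BdK g a → RealM g t B a := by
  by_contra h0
  have hι : #(Shrink.{u} g ⊕ (Shrink.{u} g × Shrink.{u} g) ⊕ (Shrink.{u} g × Shrink.{u} g)) ≤
      card g := by
    have e : #(Shrink.{u} g) = card g := rfl
    simp only [mk_sum, mk_prod, lift_id, e, mul_eq_self hg, add_eq_self hg, le_refl]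
  obtain ⟨j, hj⟩ := fr_constK hι ht hw
    (fun j a => Good t B a ∧ ∃ (U V : Shrink.{u} g → ZFSet.{u}) (u v Q G : ZFSet.{u}),
      G ∈ low t ∧ CodedM B a Q G U V j ∧
      (∀ f, f ∈ u ↔ ∃ m, U m = f) ∧ (∀ f, f ∈ v ↔ ∃ k, V k = f) ∧
      ∃ i ∈ a, ∀ b ∈ a, i ∈ b → ∀ h ∈ low a, ¬ InTK a u v (ExQ B a Q G) b h)
    (((not_eventually.1 h0).and_eventually h).mono fun a ⟨h1, ha⟩ => by
      obtain ⟨hu, h2⟩ := Classical.not_imp.1 h1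
      simp only [RealM, not_forall, not_exists, not_and] at h2
      obtain ⟨u, v, Q, G, c1, c0, c2, ⟨y, c3⟩, c4, c6, i, hi, c5⟩ := h2
      obtain ⟨U, hU⟩ := realK_enum c1.1 c0
      obtain ⟨V, hV⟩ := realK_enum c4.1 ((c4.2.2 _ c3).imp fun _ h => h.1)
      have u0 := fun m => c1.2 _ ((hU _).2 ⟨m, rfl⟩)
      have v0 := fun m => c4.2.1 _ ((hV _).2 ⟨m, rfl⟩)
      obtain ⟨j, j1, j2⟩ := exists_codedM ha ((mem_low ht.1).1 c6).2 (fun m => (u0 m).1)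
        (fun m => (u0 m).2) (fun k => (v0 k).1) (fun k => (v0 k).2)
        (fun x hx => by
          obtain ⟨f, g1, g2⟩ := c4.2.2 x hx
          obtain ⟨m, rfl⟩ := (hV f).1 g1
          exact ⟨m, g2⟩) c2
      exact ⟨hu, j, j1, ha, U, V, u, v, Q, G, c6, j2, hU, hV, i, hi, c5⟩)
  have hu := unc_of_regular ht
  have key : ∀ᶠ a in cf t (unc_of_regular ht), ∀ i ∈ a, ∃ b ∈ a, i ∈ b ∧ Good t B b ∧
      ∃ (U V : Shrink.{u} g → ZFSet.{u}) (Q G : ZFSet.{u}),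
        G ∈ low a ∧ CodedM B b Q G U V j := by
    refine ev_diag ht (p := fun i a => ∃ b ∈ a, i ∈ b ∧ Good t B b ∧
      ∃ (U V : Shrink.{u} g → ZFSet.{u}) (Q G : ZFSet.{u}),
        G ∈ low a ∧ CodedM B b Q G U V j) fun i hi => ?_
    obtain ⟨b, ⟨-, hb, U, V, -, -, Q, G, b1, b2, -⟩, b3, b4⟩ :=
      (hj.and_eventually ((ev_above hu hi).and (ev_mem hu))).exists
    obtain ⟨g1, g2⟩ := (mem_low ht.1).1 b1
    obtain ⟨c, c1, c2⟩ := exists_level ht.1 (fun b hb => hu.succ hb) g1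
    filter_upwards [ev_above (S := t) hu b4.2, ev_above (S := t) hu c1, ev_mem (S := t) hu]
      with a a1 a2 a3
    exact ⟨b, a1, b3, hb, U, V, Q, G,
      (mem_low (ht.1.mem a3.2)).2 ⟨c2.trans (rank_lt_of_mem a2), g2⟩, b2⟩
  obtain ⟨a, ⟨-, ha, U, V, u, v, Q, G, -, a1, a2, a3, i, hi, a4⟩, h1⟩ :=
    (hj.and_eventually key).exists
  obtain ⟨b, b1, b2, hb, U', V', Q', G', b3, b4⟩ := h1 i hi
  exact a4 b b1 b2 G' b3 (reflectM ha hb b1 b3 a1 b4 a2 a3)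

end Pool.Agent.MP_ecfd11_lc.H46M
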